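import Pool.Agent.Y294.IV.D.Main

/-!
# Rays of invisibility in all dimensions with two arbitrary reflections, the others being at
algebraic boundary points

Definitions (files `Pool/Agent/H721R2/Ivrii/Def.lean`, `Pool/Agent/TH746/AL/Main.lean`,
`Pool/Agent/TH746/AL/Invis.lean`, `Pool/Agent/Y294/TB2/Alg.lean` and
`Pool/Agent/Y294/IV/D/Glob.lean`), for a set `B` (the body) in `ℝ^d`, with complement `Bᶜ`:

* `LocalDef Bᶜ q F`: near `q` the complement of the body is `{F < 0}`, `F` is `C³` near `q`,
  `F q = 0` and the gradient of `F` at `q` is not zero;
* `ZeroCurv Bᶜ q`: for some such `F` the second derivative `F''(q)` vanishes on the tangent space,
  i.e. the boundary is regular at `q` and its curvatures at the single point `q` are zero;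
* `Mirror Bᶜ q v v'`: for some such `F` the direction `v` is not tangent to the boundary at `q`, and
  `v'` is the direction `v` reflected in the tangent hyperplane at `q`;
* `Step Bᶜ q v q' v'`: `q' = q + t v` with `t > 0`, the open segment from `q` to `q'` does not meet
  `B`, and `v` is reflected into `v'` at `q'` as above;
* `InvRay B n y v A u`: the oriented line through `y` with unit direction `v` (`y` orthogonal to `v`,
  so `y` is the point of the line nearest to the origin) is a ray of invisibility with `n ≥ 1`
  reflections, at the points `A 0, ..., A (n - 1)`: it does not meet `B` before `A 0`, it is
  reflected there into `u 0`, the reflected ray goes on to `A 1` and is reflected into `u 1`, and so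
  on; the last direction `u (n - 1)` is `v`, the last point `A (n - 1)` lies on the line and the line
  does not meet `B` after it;
* `AlgAt B q`: near `q` the boundary of `B` lies in the zero set of a real polynomial the leading form
  of which (homogeneous part of top degree) is not divisible by `X₁² + ... + X_d²`
  (a noncircular algebraic boundary point);
* `AnyAlg B q`: near `q` the boundary of `B` lies in the zero set of a nonzero real polynomial
  (an algebraic boundary point, circular or not, for instance a point of a sphere);
* `InvPair B`: the pairs `(y, v)` of such rays of invisibility, with any number `n` of reflections,
  for which there are `a ≤ b < n` such that all the points `A k`, `k ≠ a`, `k ≠ b`, are noncircular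
  algebraic boundary points, and such that `A a` or `A b` is an algebraic boundary point or all the
  points `A k` with `a < k < b` are points of zero curvature.

So at most two of the reflections are not at noncircular algebraic boundary points (one if
`a = b`). They are at arbitrary points of the boundary (of class `C³`) if they are consecutive, or
separated by reflections in flat mirrors only; and in any case if one of the two is algebraic, for
instance on a sphere or on a torus.

The pairs `(y, v)` with `|v| = 1` and `y` orthogonal to `v` are the standard model of the manifold of
oriented lines, of dimension `2 d - 2`. The theorem: for every `d ≥ 2` and every set `B` in `ℝ^d`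
the `(2 d - 2)`-dimensional Hausdorff measure of `InvPair B` is zero. With at most one arbitrary
reflection this is `OneArbitraryReflection` of the starting files, and in the plane
`TwoArbitraryReflections` has no condition on the reflections in between.

The proof is that of the theorem `ConsecutiveArbitraryBounces` on periodic billiard trajectories
(`MP_249f74_an`, an outline is given there), for closed chains of mirrors the last flight of which
(along the line, from the last reflection point back or ahead to the first one) may have any sign:
what is used of the lengths of the flights is that their total, the defect of optical length, does
not vanish and that the flights between the two arbitrary reflections are positive.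
-/

set_option autoImplicit false

open MeasureTheory

namespace Pool.Agent.Results.MP_38cb64_an.ConsecutiveArbitraryReflections

open Pool.Agent.Y294.IV.D

/-- For every `d ≥ 2` and every body `B ⊆ ℝ^d` the rays of invisibility, with any number of
reflections, all of them transversal and at boundary points of class `C³`, all of which, with the
exception of at most two, `A a` and `A b`, are at noncircular algebraic boundary points, `A a` or
`A b` being an algebraic point or all the reflections between them being at points of zero
curvature, form a set of measure zero in the `(2 d - 2)`-dimensional manifold of oriented lines. -/
theorem result (d : ℕ) (hd : 2 ≤ d) (B : Set (EuclideanSpace ℝ (Fin d))) :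
    μH[((2 * d - 2 : ℕ) : ℝ)] (InvPair B) = 0 :=
  main hd B

end Pool.Agent.Results.MP_38cb64_an.ConsecutiveArbitraryReflections
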