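import Pool.Agent.Y294.IV.Main

/-!
# Rays of invisibility in the plane with at most two arbitrary reflections, all the others being at
algebraic boundary points

Definitions (files `Pool/Agent/H721R2/Ivrii/Def.lean`, `Pool/Agent/TH746/AL/Main.lean`,
`Pool/Agent/TH746/AL/Invis.lean` and `Pool/Agent/Y294/IV/Glob.lean`), for a set `B` (the body) in `ℝ^d`,
with complement `Bᶜ`:

* `LocalDef Bᶜ q F`: near `q` the complement of the body is `{F < 0}`, `F` is `C³` near `q`,
  `F q = 0` and the gradient of `F` at `q` is not zero;
* `Mirror Bᶜ q v v'`: for some such `F` the direction `v` is not tangent to the boundary at `q`, and
  `v'` is the direction `v` reflected in the tangent hyperplane at `q`;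
* `Step Bᶜ q v q' v'`: `q' = q + t v` with `t > 0`, the open segment from `q` to `q'` does not meet
  `B`, and `v` is reflected into `v'` at `q'` as above;
* `InvRay B n y v A u`: the oriented line through `y` with unit direction `v` (`y` orthogonal to `v`,
  so `y` is the point of the line nearest to the origin) is a ray of invisibility with `n ≥ 1`
  reflections, at the points `A 0, ..., A (n - 1)`: it does not meet `B` before `A 0`, it is
  reflected there into `u 0`, the reflected ray goes on to `A 1` and is reflected into `u 1`, and so
  on; the last direction `u (n - 1)` is `v`, the last point `A (n - 1)` lies on the line and the line
  does not meet `B` after it;
* `AlgAt B q`: near `q` the boundary of `B` lies in the zero set of a real polynomial the leading form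
  of which (homogeneous part of top degree) is not divisible by `X₁² + ... + X_d²`
  (a noncircular algebraic boundary point);
* `InvTwoArb B`, for `B ⊆ ℝ²`: the pairs `(y, v)`, `|v| = 1`, `y` orthogonal to `v`, of such rays of
  invisibility, with any number `n` of reflections, at most two of the points `A 0, ..., A (n - 1)`
  not being noncircular algebraic boundary points.

The pairs `(y, v)` with `|v| = 1` and `y` orthogonal to `v` are the standard model of the manifold of
oriented lines, of dimension `2` in the plane. The theorem: for every set `B` in the plane the
two-dimensional Hausdorff measure of `InvTwoArb B` is zero. So a body in the plane whose boundary
consists of pieces of noncircular algebraic curves and of two arbitrary curves of class `C³` is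
invisible only for a null set of the rays which meet each of the two at most once.

With at most one arbitrary reflection this is `OneArbitraryReflection` of the starting files. There
the argument is purely algebraic. With a second arbitrary reflection the ray is not determined by
algebraic data; the proof is that of the theorem `TwoArbitraryBounces` on periodic billiard
trajectories (`MP_249f74_an`), for closed chains of mirrors the last flight of which (along the line,
from the last reflection point back or ahead to the first one) may have any sign: what is used
of the lengths of the flights is that their total, the defect of optical length, does not vanish
and that the length of the part of the ray between the two arbitrary reflections does not vanish.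
-/

set_option autoImplicit false

open MeasureTheory

namespace Pool.Agent.Results.MP_38cb64_an.TwoArbitraryReflections

open Pool.Agent.Y294.IV

/-- For every body `B` in the plane the rays of invisibility, with any number of reflections, all of
them transversal and at boundary points of class `C³`, at most two of which are not noncircular
algebraic boundary points, form a set of measure zero in the two-dimensional manifold of oriented
lines. -/
theorem result (B : Set (EuclideanSpace ℝ (Fin 2))) : μH[2] (InvTwoArb B) = 0 :=
  main B

end Pool.Agent.Results.MP_38cb64_an.TwoArbitraryReflections
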